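import Mathlib
import Pool.Agent.QPI.Stmts

set_option autoImplicit false

/-! Row A_POS of squad QPI. Hermite expansion of monomials. -/

namespace Pool.Agent.QPI.H82

open MvPolynomial

/-- Coefficient of the Hermite polynomial `He_k` in `x ^ a`. -/
def hc : ℕ → ℕ → ℚ
  | 0, 0 => 1
  | 0, _ + 1 => 0
  | a + 1, 0 => hc a 1
  | a + 1, k + 1 => hc a k + (k + 2 : ℚ) * hc a (k + 2)

theorem hc_zero_of_lt : ∀ (a k : ℕ), a < k → hc a k = 0
  | 0, 0, h => absurd h (lt_irrefl _)
  | 0, _ + 1, _ => rfl
  | a + 1, 0, h => absurd h (Nat.not_lt_zero _)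
  | a + 1, k + 1, h => by
      have h1 : hc a k = 0 := hc_zero_of_lt a k (by omega)
      have h2 : hc a (k + 2) = 0 := hc_zero_of_lt a (k + 2) (by omega)
      simp [hc, h1, h2]

theorem hc_self : ∀ a : ℕ, hc a a = 1
  | 0 => rfl
  | a + 1 => by
      have h2 : hc a (a + 2) = 0 := hc_zero_of_lt a (a + 2) (by omega)
      simp [hc, h2, hc_self a]

/-- derivative rule -/
theorem hc_der : ∀ (a k : ℕ), ((k : ℚ) + 1) * hc (a + 1) (k + 1) = ((a : ℚ) + 1) * hc a k
  | 0, 0 => by simp [hc]
  | 0, k + 1 => by simp [hc]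
  | a + 1, 0 => by
      have h1 := hc_der a 1
      have e1 : hc (a + 2) 1 = hc (a + 1) 0 + (0 + 2 : ℚ) * hc (a + 1) 2 := by
        simp [hc]
      have e2 : hc (a + 1) 0 = hc a 1 := rfl
      push_cast at h1 ⊢
      rw [e1]
      rw [e2] at *
      linarith
  | a + 1, k + 1 => by
      have h1 := hc_der a (k + 2)
      have h2 := hc_der a k
      have e1 : hc (a + 2) (k + 2) = hc (a + 1) (k + 1) + ((k : ℚ) + 1 + 2) * hc (a + 1) (k + 3) := by
        rw [hc]
        push_cast
        rfl
      have e2 : hc (a + 1) (k + 1) = hc a k + ((k : ℚ) + 2) * hc a (k + 2) := by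
        rw [hc]
      push_cast at h1 ⊢
      have e1' : hc (a + 1 + 1) (k + 1 + 1) =
        hc (a + 1) (k + 1) + ((k : ℚ) + 1 + 2) * hc (a + 1) (k + 3) := e1
      have h1' : ((k : ℚ) + 2 + 1) * hc (a + 1) (k + 3) = ((a : ℚ) + 1) * hc a (k + 2) := h1
      rw [e1']
      have h3 : ((k : ℚ) + 1 + 2) * hc (a + 1) (k + 3) = ((a : ℚ) + 1) * hc a (k + 2) := by
        rw [← h1']; ring
      rw [h3]
      have h4 : ((k : ℚ) + 2) * hc a (k + 2) = hc (a + 1) (k + 1) - hc a k := by
        rw [e2]; ring
      have h5 : ((k : ℚ) + 1 + 1) * (((a : ℚ) + 1) * hc a (k + 2)) =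
          ((a : ℚ) + 1) * (hc (a + 1) (k + 1) - hc a k) := by
        rw [← h4]; ring
      rw [mul_add, h5]
      linarith

theorem hc_dm : ∀ n : ℕ, hc n 0 = (dm n : ℚ)
  | 0 => by simp [hc, dm]
  | 1 => by simp [hc, dm]
  | n + 2 => by
      have h1 := hc_der n 0
      have ih := hc_dm n
      have e : hc (n + 2) 0 = hc (n + 1) 1 := rfl
      rw [e]
      simp only [Nat.cast_zero, zero_add, one_mul] at h1
      rw [h1, ih]
      unfold dm
      by_cases hn : Even n
      · have hn2 : Even (n + 2) := by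
          obtain ⟨m, hm⟩ := hn
          exact ⟨m + 1, by omega⟩
        rw [if_pos hn, if_pos hn2]
        rcases n with _ | n
        · simp
        · have : n + 1 + 2 - 1 = n + 2 := by omega
          rw [this, Nat.doubleFactorial_add_two, show n + 1 - 1 = n from rfl]
          push_cast
          ring
      · have hn2 : ¬ Even (n + 2) := by
          intro h
          apply hn
          obtain ⟨m, hm⟩ := h
          exact ⟨m - 1, by omega⟩
        rw [if_neg hn, if_neg hn2]
        simp

/-- the bilinear sum -/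
theorem hc_shift (a b N : ℕ) (hN : a + b + 1 < N) :
    ∑ k ∈ Finset.range N, (k.factorial : ℚ) * hc (a + 1) k * hc b k =
      ∑ k ∈ Finset.range N, (k.factorial : ℚ) * hc a k * hc (b + 1) k := by
  obtain ⟨M, rfl⟩ : ∃ M, N = M + 1 := ⟨N - 1, by omega⟩
  have e : ∀ x y : ℕ, x + y < M → ∑ k ∈ Finset.range (M + 1), (k.factorial : ℚ) * hc (x + 1) k * hc y k =
      ∑ k ∈ Finset.range M, ((k + 1).factorial : ℚ) * hc x k * hc y (k + 1) +
      ∑ k ∈ Finset.range M, ((k + 1).factorial : ℚ) * hc x (k + 1) * hc y k := by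
    intro x y hxy
    rw [Finset.sum_range_succ']
    have h1 : ∀ k : ℕ, (((k + 1).factorial : ℕ) : ℚ) * hc (x + 1) (k + 1) * hc y (k + 1) =
        ((k + 1).factorial : ℚ) * hc x k * hc y (k + 1) +
        ((k + 2).factorial : ℚ) * hc x (k + 2) * hc y (k + 1) := by
      intro k
      rw [hc, Nat.factorial_succ (k + 1)]
      push_cast
      ring
    simp only [h1]
    rw [Finset.sum_add_distrib, add_assoc]
    congr 1
    obtain ⟨L, rfl⟩ : ∃ L, M = L + 1 := ⟨M - 1, by omega⟩
    rw [Finset.sum_range_succ, Finset.sum_range_succ' _ L]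
    have h2 : hc x (L + 2) = 0 := hc_zero_of_lt _ _ (by omega)
    have h3 : hc (x + 1) 0 = hc x 1 := rfl
    rw [h2, h3]
    simp
  rw [e a b (by omega)]
  have h4 : ∑ k ∈ Finset.range (M + 1), (k.factorial : ℚ) * hc a k * hc (b + 1) k =
    ∑ k ∈ Finset.range (M + 1), (k.factorial : ℚ) * hc (b + 1) k * hc a k := by
    apply Finset.sum_congr rfl
    intro k _
    ring
  rw [h4, e b a (by omega)]
  rw [add_comm]
  congr 1 <;>
  · apply Finset.sum_congr rfl
    intro k _
    ring

theorem hc_bil : ∀ (a b N : ℕ), a + b < N →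
    ∑ k ∈ Finset.range N, (k.factorial : ℚ) * hc a k * hc b k = (dm (a + b) : ℚ)
  | 0, b, N, hN => by
      obtain ⟨M, rfl⟩ : ∃ M, N = M + 1 := ⟨N - 1, by omega⟩
      rw [Finset.sum_range_succ']
      have : ∀ k : ℕ, hc 0 (k + 1) = 0 := fun k => rfl
      simp only [this]
      simp [hc, hc_dm]
  | a + 1, b, N, hN => by
      rw [hc_shift a b N (by omega), hc_bil a (b + 1) N (by omega)]
      congr 2
      omega

theorem a_pos (hL : LinStmt) : PosStmt := by
  intro κ _ _ p hp
  by_contra hne
  obtain ⟨hadd, -, hmon⟩ := hL κ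
  -- additivity over finite sums
  have hzero : Ex (0 : MvPolynomial κ ℚ) = 0 := by simp [Ex]
  have hsum : ∀ {τ : Type} (s : Finset τ) (F : τ → MvPolynomial κ ℚ),
      Ex (∑ i ∈ s, F i) = ∑ i ∈ s, Ex (F i) := by
    intro τ s F
    classical
    induction s using Finset.induction_on with
    | empty => simp [hzero]
    | insert a s ha ih => rw [Finset.sum_insert ha, Finset.sum_insert ha, hadd, ih]
  set N : ℕ := 2 * p.totalDegree + 1 with hN
  have hdeg : ∀ α ∈ p.support, ∀ i, α i ≤ p.totalDegree := by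
    intro α hα i
    have h1 := MvPolynomial.le_totalDegree hα
    have h2 : α i ≤ α.degree := Finsupp.le_degree i α
    rw [Finsupp.degree] at h2
    exact h2.trans h1
  have key : Ex (p * p) = ∑ κ' ∈ Fintype.piFinset (fun _ : κ => Finset.range N),
      (∏ i, ((κ' i).factorial : ℚ)) *
        (∑ α ∈ p.support, p.coeff α * ∏ i, hc (α i) (κ' i)) ^ 2 := by
    have h1 : p * p = ∑ α ∈ p.support, ∑ β ∈ p.support,
        monomial (α + β) (p.coeff α * p.coeff β) := by
      rw [MvPolynomial.mul_def]
      rfl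
    rw [h1, hsum]
    have h2 : ∀ α ∈ p.support, Ex (∑ β ∈ p.support, monomial (α + β) (p.coeff α * p.coeff β)) =
        ∑ β ∈ p.support, ∑ κ' ∈ Fintype.piFinset (fun _ : κ => Finset.range N),
          (∏ i, ((κ' i).factorial : ℚ)) *
          ((p.coeff α * ∏ i, hc (α i) (κ' i)) * (p.coeff β * ∏ i, hc (β i) (κ' i))) := by
      intro α hα
      rw [hsum]
      apply Finset.sum_congr rfl
      intro β hβ
      rw [hmon]
      have h3 : ∀ i, (dm ((α + β) i) : ℚ) =
          ∑ k ∈ Finset.range N, (k.factorial : ℚ) * hc (α i) k * hc (β i) k := by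
        intro i
        rw [hc_bil (α i) (β i) N]
        · rfl
        · have := hdeg α hα i
          have := hdeg β hβ i
          omega
      simp only [h3]
      rw [Finset.prod_univ_sum, Finset.mul_sum]
      apply Finset.sum_congr rfl
      intro κ' _
      rw [Finset.prod_mul_distrib, Finset.prod_mul_distrib]
      ring
    rw [Finset.sum_congr rfl h2]
    have h4 : ∀ α ∈ p.support, (∑ β ∈ p.support, ∑ κ' ∈ Fintype.piFinset (fun _ : κ => Finset.range N),
          (∏ i, ((κ' i).factorial : ℚ)) *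
          ((p.coeff α * ∏ i, hc (α i) (κ' i)) * (p.coeff β * ∏ i, hc (β i) (κ' i)))) =
        ∑ κ' ∈ Fintype.piFinset (fun _ : κ => Finset.range N), ∑ β ∈ p.support,
          (∏ i, ((κ' i).factorial : ℚ)) *
          ((p.coeff α * ∏ i, hc (α i) (κ' i)) * (p.coeff β * ∏ i, hc (β i) (κ' i))) := by
      intro α _
      exact Finset.sum_comm
    rw [Finset.sum_congr rfl h4, Finset.sum_comm]
    apply Finset.sum_congr rfl
    intro κ' _
    rw [sq, Finset.sum_mul_sum, Finset.mul_sum]
    apply Finset.sum_congr rfl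
    intro α _
    rw [Finset.mul_sum]
  rw [key, Finset.sum_eq_zero_iff_of_nonneg] at hp
  · -- choose a monomial of maximal degree
    obtain ⟨α0, hα0, hmax⟩ := Finset.exists_max_image p.support (fun α => α.degree)
      (MvPolynomial.support_nonempty.2 hne)
    have h5 := hp (fun i => α0 i) (by
      rw [Fintype.mem_piFinset]
      intro i
      rw [Finset.mem_range]
      have := hdeg α0 hα0 i
      omega)
    have h6 : (∏ i, ((α0 i).factorial : ℚ)) ≠ 0 :=
      Finset.prod_ne_zero_iff.2 fun i _ => Nat.cast_ne_zero.2 (Nat.factorial_ne_zero _)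
    have h7 : (∑ α ∈ p.support, p.coeff α * ∏ i, hc (α i) (α0 i)) = 0 := by
      rcases mul_eq_zero.1 h5 with h | h
      · exact absurd h h6
      · exact pow_eq_zero_iff (two_ne_zero) |>.1 h
    have h8 : (∑ α ∈ p.support, p.coeff α * ∏ i, hc (α i) (α0 i)) = p.coeff α0 := by
      rw [Finset.sum_eq_single α0]
      · simp [hc_self]
      · intro α hα hαne
        have : ∃ i, α i < α0 i := by
          by_contra hcon
          push Not at hcon
          have hle : α0 ≤ α := fun i => hcon i
          apply hαne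
          have hd : α.degree ≤ α0.degree := hmax α hα
          obtain ⟨γ, rfl⟩ : ∃ γ, α = α0 + γ := ⟨α - α0, (add_tsub_cancel_of_le hle).symm⟩
          rw [map_add] at hd
          have : γ.degree = 0 := by omega
          rw [Finsupp.degree_eq_zero_iff] at this
          rw [this, add_zero]
        obtain ⟨i, hi⟩ := this
        rw [Finset.prod_eq_zero (Finset.mem_univ i) (hc_zero_of_lt _ _ hi), mul_zero]
      · intro h
        exact absurd hα0 h
    rw [h8] at h7
    exact (MvPolynomial.mem_support_iff.1 hα0) h7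
  · intro κ' _
    apply mul_nonneg
    · exact Finset.prod_nonneg fun i _ => Nat.cast_nonneg _
    · exact sq_nonneg _

end Pool.Agent.QPI.H82
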